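import Pool.Agent.W78.EG.Defs

/-!
Project EG (helper78), part PID: the orders of class number one are principal ideal rings.
-/

set_option autoImplicit false

namespace Pool.Agent.W290.EG

open Pool.Agent.W78.GA
open Pool.Agent.W78.EG

variable {t c : ℤ} {f : ℕ} {χ : DirichletCharacter ℂ f}

/-- the discriminant is negative -/
lemma fd_disc (hF : Fd t c f χ) : t ^ 2 < 4 * c := by
  have h1 := hF.disc
  have h2 : (3 : ℤ) ≤ (f : ℤ) := by exact_mod_cast hF.three
  linarith

lemma om_mul (z : Qd t c) : (⟨0, 1⟩ : Qd t c) * z = ⟨-c * z.im, z.re + t * z.im⟩ := by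
  apply QuadraticAlgebra.ext
  · simp only [QuadraticAlgebra.re_mul]
    ring
  · simp only [QuadraticAlgebra.im_mul]
    ring

/-- Hermite normal form of an ideal -/
theorem hnf (hD : t ^ 2 < 4 * c) (I : Ideal (Qd t c)) (hI : I ≠ ⊥) :
    ∃ (n d : ℕ) (r : ℤ), 1 ≤ n ∧ 1 ≤ d ∧ (d : ℤ) ∣ r ^ 2 - t * r + c ∧
      ∀ z : Qd t c, z ∈ I ↔ ∃ u : Qd t c, z = (n : Qd t c) * u ∧ lat d r u := by
  -- the ideal of second coordinates
  let A : Ideal ℤ :=
    { carrier := {y | ∃ z ∈ I, z.im = y}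
      add_mem' := by
        rintro a b ⟨z, hz, rfl⟩ ⟨w, hw, rfl⟩
        exact ⟨z + w, I.add_mem hz hw, rfl⟩
      zero_mem' := ⟨0, I.zero_mem, rfl⟩
      smul_mem' := by
        rintro a b ⟨z, hz, rfl⟩
        refine ⟨(a : Qd t c) * z, I.mul_mem_left _ hz, ?_⟩
        simp [QuadraticAlgebra.im_mul] }
  -- the ideal of integers in `I`
  let B : Ideal ℤ :=
    { carrier := {x | (x : Qd t c) ∈ I}
      add_mem' := by
        intro a b ha hb
        simp only [Set.mem_ofPred_eq, Int.cast_add] at *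
        exact I.add_mem ha hb
      zero_mem' := by simp
      smul_mem' := by
        intro a b hb
        simp only [Set.mem_ofPred_eq, smul_eq_mul, Int.cast_mul] at *
        exact I.mul_mem_left _ hb }
  obtain ⟨n', hn'⟩ : ∃ n', A = Ideal.span {n'} := (IsPrincipalIdealRing.principal A).principal
  obtain ⟨m', hm'⟩ : ∃ m', B = Ideal.span {m'} := (IsPrincipalIdealRing.principal B).principal
  have hA : ∀ y : ℤ, (∃ z ∈ I, z.im = y) ↔ ((n'.natAbs : ℕ) : ℤ) ∣ y := by
    intro y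
    rw [Int.natAbs_dvd, ← Ideal.mem_span_singleton, ← hn']
    rfl
  have hB : ∀ x : ℤ, (x : Qd t c) ∈ I ↔ ((m'.natAbs : ℕ) : ℤ) ∣ x := by
    intro x
    rw [Int.natAbs_dvd, ← Ideal.mem_span_singleton, ← hm']
    rfl
  obtain ⟨n, hn⟩ : ∃ n, n = n'.natAbs := ⟨_, rfl⟩
  obtain ⟨m, hm⟩ : ∃ m, m = m'.natAbs := ⟨_, rfl⟩
  rw [← hn] at hA
  rw [← hm] at hB
  obtain ⟨z₀, hz₀, hz₀'⟩ : ∃ z₀ ∈ I, z₀ ≠ (0 : Qd t c) := Submodule.exists_mem_ne_zero_of_ne_bot hI
  -- `m ≠ 0`
  have hm0 : m ≠ 0 := by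
    intro h0
    have h1 : ((nm z₀ : ℤ) : Qd t c) ∈ I := by
      rw [Int.cast_natCast, ← star_mul_self' hD]
      exact I.mul_mem_left _ hz₀
    rw [hB, h0] at h1
    simp only [Nat.cast_zero, zero_dvd_iff, Nat.cast_eq_zero] at h1
    exact hz₀' ((nm_eq_zero hD).1 h1)
  -- `n ∣ m`
  have hnm : (n : ℤ) ∣ m := by
    have h1 : ((m : ℤ) : Qd t c) ∈ I := (hB _).2 (dvd_refl _)
    have h2 : (⟨0, 1⟩ : Qd t c) * ((m : ℤ) : Qd t c) ∈ I := I.mul_mem_left _ h1
    have h3 := (hA _).1 ⟨_, h2, rfl⟩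
    rw [om_mul] at h3
    simpa using h3
  have hn0 : n ≠ 0 := by
    rintro rfl
    rw [Nat.cast_zero, zero_dvd_iff] at hnm
    exact hm0 (by exact_mod_cast hnm)
  obtain ⟨u, hu, hun⟩ : ∃ z ∈ I, z.im = (n : ℤ) := (hA _).2 (dvd_refl _)
  have h4 : (⟨0, 1⟩ : Qd t c) * u ∈ I := I.mul_mem_left _ hu
  rw [om_mul] at h4
  have h5 : (n : ℤ) ∣ u.re := by
    have h6 := (hA _).1 ⟨_, h4, rfl⟩
    rw [hun] at h6
    exact (Int.dvd_add_left (Dvd.intro_left t rfl)).1 h6
  obtain ⟨s, hs⟩ := h5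
  obtain ⟨d', hd'⟩ := hnm
  have hnpos : (0 : ℤ) < n := by
    have : 0 < n := Nat.pos_of_ne_zero hn0
    exact_mod_cast this
  have hmpos : (0 : ℤ) < m := by
    have : 0 < m := Nat.pos_of_ne_zero hm0
    exact_mod_cast this
  have hd0 : 0 < d' := by
    rw [hd'] at hmpos
    exact (mul_pos_iff_of_pos_left hnpos).1 hmpos
  obtain ⟨d, hd⟩ : ∃ d : ℕ, (d : ℤ) = d' := ⟨d'.toNat, Int.toNat_of_nonneg hd0.le⟩
  have hmd : (m : ℤ) = n * d := by rw [hd', hd]
  -- membership
  have key : ∀ z : Qd t c, z ∈ I ↔ ∃ u : Qd t c, z = (n : Qd t c) * u ∧ lat d (-s) u := by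
    intro z
    constructor
    · intro hz
      obtain ⟨y, hy⟩ := (hA _).1 ⟨z, hz, rfl⟩
      have h6 : z - (y : Qd t c) * u ∈ I := I.sub_mem hz (I.mul_mem_left _ hu)
      have h7 : z - (y : Qd t c) * u = ((z.re - y * (n * s) : ℤ) : Qd t c) := by
        apply QuadraticAlgebra.ext
        · simp only [QuadraticAlgebra.re_sub, QuadraticAlgebra.re_mul, QuadraticAlgebra.re_intCast,
            QuadraticAlgebra.im_intCast, hs, Int.cast_id]
          ring
        · simp only [QuadraticAlgebra.im_sub, QuadraticAlgebra.im_mul, QuadraticAlgebra.re_intCast,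
            QuadraticAlgebra.im_intCast, hun, hy, Int.cast_id]
          ring
      rw [h7, hB, hmd] at h6
      obtain ⟨w, hw⟩ := h6
      refine ⟨⟨y * s + d * w, y⟩, ?_, ?_⟩
      · apply QuadraticAlgebra.ext
        · simp only [QuadraticAlgebra.re_mul, QuadraticAlgebra.re_natCast,
            QuadraticAlgebra.im_natCast]
          linear_combination hw
        · simp only [QuadraticAlgebra.im_mul, QuadraticAlgebra.re_natCast,
            QuadraticAlgebra.im_natCast, hy]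
          ring
      · unfold lat
        refine ⟨w, ?_⟩
        simp only []
        ring
    · rintro ⟨v, rfl, w, hw⟩
      have h8 : (n : Qd t c) * v = ((m * w : ℤ) : Qd t c) + (v.im : Qd t c) * u := by
        apply QuadraticAlgebra.ext
        · simp only [QuadraticAlgebra.re_mul, QuadraticAlgebra.re_natCast,
            QuadraticAlgebra.im_natCast, QuadraticAlgebra.re_add, QuadraticAlgebra.re_intCast,
            QuadraticAlgebra.im_intCast, hs, hmd, Int.cast_id]
          linear_combination (n : ℤ) * hw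
        · simp only [QuadraticAlgebra.im_mul, QuadraticAlgebra.re_natCast,
            QuadraticAlgebra.im_natCast, QuadraticAlgebra.im_add, QuadraticAlgebra.re_intCast,
            QuadraticAlgebra.im_intCast, hun, Int.cast_id]
          ring
      rw [h8]
      exact I.add_mem ((hB _).2 (Dvd.intro _ rfl)) (I.mul_mem_left _ hu)
  refine ⟨n, d, -s, Nat.pos_of_ne_zero hn0, ?_, ?_, key⟩
  · have : (0 : ℤ) < d := by rw [hd]; exact hd0
    exact_mod_cast this
  · obtain ⟨v, hv, w, hw⟩ := (key _).1 h4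
    have e1 := congrArg QuadraticAlgebra.re hv
    have e2 := congrArg QuadraticAlgebra.im hv
    simp only [QuadraticAlgebra.re_mul, QuadraticAlgebra.im_mul, QuadraticAlgebra.re_natCast,
      QuadraticAlgebra.im_natCast, hun, hs] at e1 e2
    have e3 : v.re = -c := by
      apply mul_left_cancel₀ hnpos.ne'
      linear_combination -e1
    have e4 : v.im = s + t := by
      apply mul_left_cancel₀ hnpos.ne'
      linear_combination -e2
    rw [e3, e4] at hw
    refine ⟨-w, ?_⟩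
    linear_combination -hw

/-- EG-PID -/
theorem pid (hF : Fd t c f χ) : S_PID t c := by
  have hD := fd_disc hF
  refine ⟨fun I => ?_⟩
  by_cases hI : I = ⊥
  · rw [hI]
    exact bot_isPrincipal
  · obtain ⟨n, d, r, hn, hd, hr, key⟩ := hnf hD I hI
    obtain ⟨z₁, h1, h2, h3⟩ := hF.red d r hd hr
    refine ⟨⟨(n : Qd t c) * z₁, ?_⟩⟩
    ext z
    rw [Ideal.submodule_span_eq, Ideal.mem_span_singleton, key]
    constructor
    · rintro ⟨u, rfl, hu⟩
      exact mul_dvd_mul_left _ (h3 u hu)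
    · rintro ⟨v, rfl⟩
      exact ⟨z₁ * v, by ring, lat_mul_left hr v h2⟩

theorem isUnit_of_nm (hD : t ^ 2 < 4 * c) {z : Qd t c} (h : nm z = 1) : IsUnit z := by
  have h1 := star_mul_self' hD z
  rw [h, Nat.cast_one] at h1
  exact IsUnit.of_mul_eq_one _ ((mul_comm _ _).trans h1)

/-- a prime element has norm `p` or `p^2` -/
theorem irr_norm (hD : t ^ 2 < 4 * c) {z : Qd t c} (hz : Prime z) :
    ∃ p : ℕ, p.Prime ∧ z ∣ (p : Qd t c) ∧ (nm z = p ∨ nm z = p ^ 2) := by
  have h0 : nm z ≠ 0 := fun h => hz.ne_zero ((nm_eq_zero hD).1 h)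
  have h1 : z ∣ ((nm z : ℕ) : Qd t c) := by
    rw [← star_mul_self' hD z]
    exact dvd_mul_left _ _
  rw [← Nat.prod_primeFactorsList h0, Nat.cast_list_prod] at h1
  obtain ⟨a, ha, hza⟩ := (Prime.dvd_prod_iff hz).1 h1
  obtain ⟨p, hp, rfl⟩ := List.mem_map.1 ha
  have hp' : p.Prime := Nat.prime_of_mem_primeFactorsList hp
  refine ⟨p, hp', hza, ?_⟩
  have h2 := nm_dvd hza
  rw [nm_natCast] at h2
  obtain ⟨k, hk, hk'⟩ := (Nat.dvd_prime_pow hp').1 h2
  have h3 : k ≠ 0 := by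
    rintro rfl
    rw [pow_zero] at hk'
    exact hz.not_isUnit (isUnit_of_nm hD hk')
  have h4 : k = 1 ∨ k = 2 := by omega
  rcases h4 with rfl | rfl
  · left; rw [hk', pow_one]
  · right; exact hk'

end Pool.Agent.W290.EG
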